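import Pool.Agent.H649S.Link

/-!
Orbit-isometric maps between the two Bernoulli shifts cannot be coded quickly.
-/

set_option autoImplicit false

open MeasureTheory Pool.Agent.H649S

namespace Pool.Agent.Results.MP_fc0446_an.SlowCoding

/-- For every `d ≥ 2` there is `C > 0` such that for every orbit-isometric measurable map `Phi`
from the Bernoulli shift of the free group of rank `d` to the Bernoulli shift of the free product
of `2 d` groups of order two, and every `n ≥ 1`, the labels in the ball of radius `n` fail to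
determine the local rule of `Phi` with probability at least `exp (- C √(n log (n + 1)))`. -/
theorem result (d : ℕ) (hd : 2 ≤ d) : ∃ C : ℝ, 0 < C ∧
    ∀ Phi : X (FF d) → X (Gam d), AEMeasurable Phi (bern (FF d)) → OrbitIso Phi →
      ∀ n : ℕ, 1 ≤ n → Real.exp (-(C * Real.sqrt (n * Real.log (n + 1)))) ≤
        (bern (FF d)).real {x | ¬ Local Phi n x} := by
  have hd1 : (2 : ℝ) ≤ d := by exact_mod_cast hd
  have hK : 0 < cK d := by unfold cK; positivity
  refine ⟨8 * cK d, by linarith, fun Phi hPhi hiso n hn => ?_⟩
  obtain ⟨tau, htau, hle⟩ := En_le_local (by omega) hPhi hiso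
  refine le_trans ?_ (hle n)
  refine le_trans ?_ (htau.bound (volume : Measure unitInterval) (by omega) (n + 1) (by omega))
  apply Real.exp_le_exp.mpr
  have hn1 : (1 : ℝ) ≤ n := by exact_mod_cast hn
  have h1 : Real.sqrt (((n + 1 : ℕ) : ℝ) * Real.log (((n + 1 : ℕ) : ℝ) + 1)) ≤
      2 * Real.sqrt (n * Real.log (n + 1)) := by
    have h2 : (2 : ℝ) * Real.sqrt (n * Real.log (n + 1)) =
        Real.sqrt (4 * (n * Real.log (n + 1))) := by
      have h6 : Real.sqrt 4 = 2 := by
        rw [show (4 : ℝ) = 2 ^ 2 by norm_num]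
        exact Real.sqrt_sq (by norm_num)
      rw [Real.sqrt_mul (show (0 : ℝ) ≤ 4 by norm_num), h6]
    rw [h2]
    apply Real.sqrt_le_sqrt
    push_cast
    have h3 : Real.log ((n : ℝ) + 1 + 1) ≤ 2 * Real.log (n + 1) := by
      rw [← Real.log_rpow (by positivity)]
      apply Real.log_le_log (by positivity)
      rw [Real.rpow_two]
      nlinarith
    have h4 : 0 ≤ Real.log ((n : ℝ) + 1) := Real.log_nonneg (by linarith)
    nlinarith
  have h5 := mul_le_mul_of_nonneg_left h1 (show 0 ≤ 4 * cK d by linarith)
  linarith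

end Pool.Agent.Results.MP_fc0446_an.SlowCoding
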